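import Mathlib

/-! Weighted counts of an almost invariant function under one step of the map, and the core
identity. -/

namespace Pool.Agent.MP_158692_nt.H6

open Finset

noncomputable section

/-- the map -/
def T (m : ℤ) : ℤ := if m % 2 = 0 then m / 2 else (3 * m + 1) / 2

/-- integers of absolute value at most `y` -/
def box (y : ℝ) : Finset ℤ := Icc (-⌊y⌋) ⌊y⌋

theorem mem_box {y : ℝ} {n : ℤ} : n ∈ box y ↔ -y ≤ n ∧ (n : ℝ) ≤ y := by
  rw [box, mem_Icc, neg_le, Int.le_floor, Int.le_floor, Int.cast_neg, neg_le]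

theorem card_box {y : ℝ} (hy : 0 ≤ y) : ((box y).card : ℝ) ≤ 2 * y + 1 := by
  have h := Int.floor_nonneg.2 hy
  have : ((box y).card : ℤ) = 2 * ⌊y⌋ + 1 := by
    rw [box, Int.card_Icc_of_le _ _ (by omega)]; ring
  have h2 : ((box y).card : ℝ) = 2 * ⌊y⌋ + 1 := by exact_mod_cast this
  linarith [Int.floor_le y]

/-- weighted count -/
def cnt (h w : ℤ → ℝ) (y : ℝ) : ℝ := ∑ n ∈ box y, h n * w n

/-- even branch of the transfer operator -/
def t0 (w : ℤ → ℝ) (b : ℤ) : ℝ := w (2 * b) / 2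

/-- odd branch of the transfer operator -/
def t1 (w : ℤ → ℝ) (b : ℤ) : ℝ := if b % 3 = 2 then 3 / 2 * w ((2 * b - 1) / 3) else 0

/-- graded transfer operator: `M` steps, `k` of them odd; the outer branch is the last step -/
def U (w : ℤ → ℝ) : ℕ → ℕ → ℤ → ℝ
  | 0, 0 => w
  | 0, _ + 1 => 0
  | M + 1, 0 => t0 (U w M 0)
  | M + 1, k + 1 => t0 (U w M (k + 1)) + t1 (U w M k)

/-- almost invariant function bounded by one -/
structure Inv (h : ℤ → ℝ) (n₀ : ℕ) : Prop where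
  h1 : ∀ n, |h n| ≤ 1
  hT : ∀ n, (n₀ : ℤ) < |n| → h (T n) = h n

theorem cnt_add (h w w' : ℤ → ℝ) (y : ℝ) : cnt h (w + w') y = cnt h w y + cnt h w' y := by
  simp [cnt, mul_add, sum_add_distrib]

theorem cnt_mul (h w : ℤ → ℝ) (c y : ℝ) : cnt h (fun n => c * w n) y = c * cnt h w y := by
  simp [cnt, mul_sum, mul_left_comm]

theorem abs_sum_le {s : Finset ℤ} {g : ℤ → ℝ} {B : ℝ} (hg : ∀ n, |g n| ≤ B) :
    |∑ n ∈ s, g n| ≤ s.card * B :=
  (abs_sum_le_sum_abs _ _).trans ((sum_le_card_nsmul _ _ B fun n _ => hg n).trans (by simp))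

theorem abs_sum_sub_le {s t : Finset ℤ} {g : ℤ → ℝ} {B : ℝ} (hg : ∀ n, |g n| ≤ B) :
    |∑ n ∈ s, g n - ∑ n ∈ t, g n| ≤ ((s \ t).card + (t \ s).card) * B := by
  rw [← sum_sdiff_sub_sum_sdiff, add_mul]
  exact (abs_sub _ _).trans (add_le_add (abs_sum_le hg) (abs_sum_le hg))

variable {h : ℤ → ℝ} {n₀ : ℕ}

theorem Inv.abs_mul (I : Inv h n₀) {w : ℤ → ℝ} {B : ℝ} (hw : ∀ n, |w n| ≤ B) (m n : ℤ) :
    |h m * w n| ≤ B := by
  rw [_root_.abs_mul]
  exact (mul_le_of_le_one_left (abs_nonneg _) (I.h1 m)).trans (hw n)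

/-- one step -/
theorem Inv.step (I : Inv h n₀) {w : ℤ → ℝ} {B : ℝ} (hw : ∀ n, |w n| ≤ B) (y : ℝ) :
    |cnt h w y - (2 * cnt h (t0 w) (y / 2) + 2 / 3 * cnt h (t1 w) (3 * y / 2))| ≤
      (4 * n₀ + 4) * B := by
  have hB : 0 ≤ B := (abs_nonneg _).trans (hw 0)
  have e1 : |cnt h w y - ∑ n ∈ box y, h (T n) * w n| ≤ (2 * n₀ + 1) * (2 * B) := by
    rw [cnt, ← sum_sub_distrib, ← sum_filter_of_ne (p := fun n => n ∈ box (n₀ : ℝ))]
    · refine (abs_sum_le (B := 2 * B) fun n => ?_).trans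
        (mul_le_mul_of_nonneg_right ?_ (by positivity))
      · linarith [abs_sub (h n * w n) (h (T n) * w n), I.abs_mul hw n n, I.abs_mul hw (T n) n]
      · refine le_trans ?_ (card_box (Nat.cast_nonneg n₀))
        exact_mod_cast card_le_card fun n hn => (mem_filter.1 hn).2
    · intro n _ hn
      by_contra hc
      have hlt : ¬ |n| ≤ (n₀ : ℤ) := fun hlt => hc (mem_box.2 (by exact_mod_cast abs_le.1 hlt))
      exact hn (by rw [I.hT n (not_le.1 hlt), sub_self])
  have e2 : ∑ n ∈ (box y).filter (fun n => n % 2 = 0), h (T n) * w n =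
      2 * cnt h (t0 w) (y / 2) := by
    rw [cnt, mul_sum]
    refine sum_nbij' (fun n => n / 2) (fun b => 2 * b) (fun n hn => ?_) (fun b hb => ?_)
      (fun n hn => ?_) (fun b _ => by omega) (fun n hn => ?_)
    · obtain ⟨h1, h2⟩ := mem_filter.1 hn
      obtain ⟨b, rfl⟩ : ∃ b, n = 2 * b := ⟨n / 2, by omega⟩
      rw [show 2 * b / 2 = b by omega]
      rw [mem_box] at h1 ⊢
      push_cast at h1
      constructor <;> linarith only [h1.1, h1.2]
    · rw [mem_filter, mem_box]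
      rw [mem_box] at hb
      push_cast
      exact ⟨⟨by linarith only [hb.1], by linarith only [hb.2]⟩, by omega⟩
    · have := (mem_filter.1 hn).2
      omega
    · have h2 := (mem_filter.1 hn).2
      rw [T, if_pos h2, t0, show 2 * (n / 2) = n by omega]
      ring
  have e3 : ∑ n ∈ (box y).filter (fun n => ¬ n % 2 = 0), h (T n) * w n =
      ∑ b ∈ ((box y).filter (fun n => ¬ n % 2 = 0)).image (fun n => (3 * n + 1) / 2),
        h b * w ((2 * b - 1) / 3) := by
    rw [sum_image fun a ha b hb e => by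
      have := (mem_filter.1 ha).2; have := (mem_filter.1 hb).2; omega]
    refine sum_congr rfl fun n hn => ?_
    have h2 := (mem_filter.1 hn).2
    rw [T, if_neg h2, show (2 * ((3 * n + 1) / 2) - 1) / 3 = n by omega]
  have e4 : 2 / 3 * cnt h (t1 w) (3 * y / 2) =
      ∑ b ∈ (box (3 * y / 2)).filter (fun b => b % 3 = 2), h b * w ((2 * b - 1) / 3) := by
    rw [cnt, mul_sum, sum_filter]
    refine sum_congr rfl fun b _ => ?_
    rw [t1]
    split_ifs <;> ring
  have e5 := abs_sum_sub_le (s := ((box y).filter (fun n => ¬ n % 2 = 0)).image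
    (fun n => (3 * n + 1) / 2)) (t := (box (3 * y / 2)).filter (fun b => b % 3 = 2))
    (g := fun b => h b * w ((2 * b - 1) / 3)) fun b => I.abs_mul hw _ _
  have c1 : (((box y).filter (fun n => ¬ n % 2 = 0)).image (fun n => (3 * n + 1) / 2) \
      (box (3 * y / 2)).filter (fun b => b % 3 = 2)).card ≤ 1 := by
    refine (card_le_card (t := {⌊3 * y / 2⌋ + 1}) fun b hb => ?_).trans (by simp)
    simp only [mem_sdiff, mem_image, mem_filter] at hb
    obtain ⟨⟨n, ⟨h1, h2⟩, rfl⟩, h3⟩ := hb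
    obtain ⟨b, hb⟩ : ∃ b, 3 * n + 1 = 2 * b := ⟨(3 * n + 1) / 2, by omega⟩
    rw [show (3 * n + 1) / 2 = b by omega] at h3 ⊢
    have hb' : 3 * (n : ℝ) + 1 = 2 * b := by exact_mod_cast hb
    rw [mem_box] at h1 h3
    have h4 : 3 * y / 2 < b := lt_of_not_ge fun hc => h3 ⟨⟨by linarith only [h1.1, hb'], hc⟩, by omega⟩
    rw [mem_singleton, ← sub_eq_iff_eq_add, eq_comm, Int.floor_eq_iff]
    push_cast
    constructor <;> linarith only [h1.2, hb', h4]
  have c2 : ((box (3 * y / 2)).filter (fun b => b % 3 = 2) \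
      ((box y).filter (fun n => ¬ n % 2 = 0)).image (fun n => (3 * n + 1) / 2)).card ≤ 1 := by
    refine (card_le_card (t := {⌈-(3 * y / 2)⌉}) fun b hb => ?_).trans (by simp)
    simp only [mem_sdiff, mem_image, mem_filter] at hb
    obtain ⟨⟨h1, h2⟩, h3⟩ := hb
    obtain ⟨n, hb⟩ : ∃ n, 3 * n + 1 = 2 * b := ⟨(2 * b - 1) / 3, by omega⟩
    have hb' : 3 * (n : ℝ) + 1 = 2 * b := by exact_mod_cast hb
    rw [mem_box] at h1
    have h4 : (n : ℝ) < -y := lt_of_not_ge fun hc =>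
      h3 ⟨n, ⟨mem_box.2 ⟨hc, by linarith only [h1.2, hb']⟩, by omega⟩, by omega⟩
    rw [mem_singleton, eq_comm, Int.ceil_eq_iff]
    constructor <;> linarith only [h1.1, hb', h4]
  have c1' := (Nat.cast_le (α := ℝ)).2 c1
  have c2' := (Nat.cast_le (α := ℝ)).2 c2
  rw [← sum_filter_add_sum_filter_not _ (fun n => n % 2 = 0), e2, e3] at e1
  rw [← e4] at e5
  have e6 := e5.trans (mul_le_mul_of_nonneg_right (add_le_add c1' c2') hB)
  rw [Nat.cast_one] at e6
  rw [abs_le] at e1 e6 ⊢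
  constructor <;> linarith only [e1.1, e1.2, e6.1, e6.2]

theorem U_zero (w : ℤ → ℝ) : ∀ {M k : ℕ}, M < k → U w M k = 0
  | 0, _ + 1, _ => rfl
  | M + 1, k + 1, h => by
    rw [U, U_zero w (M := M) (k := k + 1) (by omega), U_zero w (M := M) (k := k) (by omega)]
    ext b
    simp [t0, t1]

theorem abs_U {w : ℤ → ℝ} {B : ℝ} (hw : ∀ n, |w n| ≤ B) : ∀ (M k : ℕ) (b : ℤ),
    |U w M k b| ≤ 3 ^ k * B
  | 0, 0, b => by simpa [U] using hw b
  | 0, _ + 1, _ => by
    have := (abs_nonneg _).trans (hw 0)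
    simp only [U, Pi.zero_apply, abs_zero]; positivity
  | M + 1, 0, b => by
    have := abs_U hw M 0 (2 * b)
    rw [U, t0, abs_div, abs_two]
    linarith [abs_nonneg (U w M 0 (2 * b))]
  | M + 1, k + 1, b => by
    have h1 := abs_le.1 (abs_U hw M (k + 1) (2 * b))
    have h2 := abs_le.1 (abs_U hw M k ((2 * b - 1) / 3))
    rw [U, Pi.add_apply, t0, t1, abs_le]
    rw [pow_succ] at h1 ⊢
    split_ifs <;> constructor <;> linarith only [h1.1, h1.2, h2.1, h2.2]

theorem U_per {w : ℤ → ℝ} {q : ℤ} (hw : Function.Periodic w q) : ∀ M k : ℕ,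
    Function.Periodic (U w M k) (3 ^ k * q)
  | 0, 0 => by simpa [U] using hw
  | 0, _ + 1 => fun _ => rfl
  | M + 1, 0 => fun b => by
    rw [U, t0, t0, mul_add]
    exact congrArg (· / 2) ((U_per hw M 0).int_mul 2 (2 * b))
  | M + 1, k + 1 => fun b => by
    have h1 := (U_per hw M (k + 1)).int_mul 2 (2 * b)
    have h2 := (U_per hw M k).int_mul 2 ((2 * b - 1) / 3)
    simp only [Int.cast_id] at h1 h2
    rw [U, Pi.add_apply, Pi.add_apply, t0, t0, t1, t1, mul_add, h1, ← h2, pow_succ', mul_assoc]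
    generalize 3 ^ k * q = c
    rw [show (b + 3 * c) % 3 = b % 3 by omega,
      show (2 * b + 2 * (3 * c) - 1) / 3 = (2 * b - 1) / 3 + 2 * c by omega]

/-- the core identity -/
theorem Inv.core (I : Inv h n₀) {w : ℤ → ℝ} {B : ℝ} (hw : ∀ n, |w n| ≤ B) (y : ℝ) (M : ℕ) :
    |cnt h w y - ∑ k ∈ range (M + 1), 2 ^ M / 3 ^ k * cnt h (U w M k) (3 ^ k * y / 2 ^ M)| ≤
      4 ^ M * ((4 * n₀ + 4) * B) := by
  have hB : 0 ≤ (4 * n₀ + 4) * B := by have := (abs_nonneg _).trans (hw 0); positivity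
  induction M with
  | zero => simpa only [zero_add, range_one, pow_zero, one_div, div_one, sum_singleton, inv_one, U, one_mul, sub_self, abs_zero, ge_iff_le] using hB
  | succ M ih =>
    have e : ∑ k ∈ range (M + 1 + 1),
        2 ^ (M + 1) / 3 ^ k * cnt h (U w (M + 1) k) (3 ^ k * y / 2 ^ (M + 1)) =
        ∑ k ∈ range (M + 1), (2 : ℝ) ^ M / 3 ^ k *
          (2 * cnt h (t0 (U w M k)) (3 ^ k * y / 2 ^ M / 2) +
            2 / 3 * cnt h (t1 (U w M k)) (3 * (3 ^ k * y / 2 ^ M) / 2)) := by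
      have z : cnt h (t0 (U w M (M + 1))) (3 ^ (M + 1) * y / 2 ^ (M + 1)) = 0 := by
        rw [U_zero w (Nat.lt_succ_self M)]; simp [cnt, t0]
      have e0 : ∑ k ∈ range (M + 1), (2 : ℝ) ^ M / 3 ^ k *
          (2 * cnt h (t0 (U w M k)) (3 ^ k * y / 2 ^ M / 2)) = ∑ k ∈ range (M + 1 + 1),
          2 ^ (M + 1) / 3 ^ k * cnt h (t0 (U w M k)) (3 ^ k * y / 2 ^ (M + 1)) := by
        rw [sum_range_succ _ (M + 1), z, mul_zero, add_zero]
        refine sum_congr rfl fun k _ => ?_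
        rw [div_div, ← pow_succ]; ring
      simp only [mul_add, sum_add_distrib]
      rw [e0, sum_range_succ', sum_range_succ' _ (M + 1)]
      simp only [U, cnt_add, mul_add, sum_add_distrib]
      rw [add_right_comm]
      congr 1
      refine sum_congr rfl fun k _ => ?_
      rw [show 3 * (3 ^ k * y / 2 ^ M) / 2 = 3 ^ (k + 1) * y / 2 ^ (M + 1) by ring]
      ring
    have e2 : |∑ k ∈ range (M + 1), 2 ^ M / 3 ^ k * cnt h (U w M k) (3 ^ k * y / 2 ^ M) -
        ∑ k ∈ range (M + 1 + 1),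
          2 ^ (M + 1) / 3 ^ k * cnt h (U w (M + 1) k) (3 ^ k * y / 2 ^ (M + 1))| ≤
        (M + 1) * (2 ^ M * ((4 * n₀ + 4) * B)) := by
      rw [e, ← sum_sub_distrib]
      refine (abs_sum_le_sum_abs _ _).trans ((sum_le_card_nsmul _ _
        (2 ^ M * ((4 * n₀ + 4) * B)) fun k _ => ?_).trans (by simp))
      rw [← mul_sub, _root_.abs_mul, abs_of_pos (by positivity : (0 : ℝ) < 2 ^ M / 3 ^ k)]
      refine (mul_le_mul_of_nonneg_left (I.step (abs_U hw M k) _) (by positivity)).trans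
        (le_of_eq ?_)
      field_simp
    have e3 : (M + 1 : ℝ) ≤ 2 ^ M := by exact_mod_cast Nat.lt_two_pow_self
    have e4 : (M + 1 : ℝ) * (2 ^ M * ((4 * n₀ + 4) * B)) ≤ 4 ^ M * ((4 * n₀ + 4) * B) := by
      rw [show (4 : ℝ) ^ M = 2 ^ M * 2 ^ M by rw [← mul_pow]; norm_num, mul_assoc]
      gcongr
    have e5 : 0 ≤ 4 ^ M * ((4 * n₀ + 4) * B) := by positivity
    rw [abs_le] at ih e2 ⊢
    rw [pow_succ (4 : ℝ)]
    constructor <;> linarith only [ih.1, ih.2, e2.1, e2.2, e4]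

/-- sum of a nonnegative periodic function over an interval -/
theorem sum_per {g : ℤ → ℝ} {W : ℕ} (hW : 0 < W) (hg : Function.Periodic g (W : ℤ))
    (g0 : ∀ n, 0 ≤ g n) (a : ℤ) (L : ℕ) :
    ∑ i ∈ range L, g (a + i) ≤ (L + W) * ((∑ b ∈ range W, g b) / W) := by
  have h1 : ∀ a : ℤ, ∑ i ∈ range W, g (a + 1 + i) = ∑ i ∈ range W, g (a + i) := fun a => by
    have e := sum_range_succ (fun i : ℕ => g (a + i)) W
    rw [sum_range_succ', hg a] at e
    simp only [Nat.cast_zero, add_zero, add_left_inj, Nat.cast_add, Nat.cast_one] at e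
    rw [← e]
    exact sum_congr rfl fun i _ => by rw [add_right_comm, add_assoc]
  have h2 : ∀ a : ℤ, ∑ i ∈ range W, g (a + i) = ∑ b ∈ range W, g b := fun a => by
    induction a with
    | zero => simp
    | succ a ih => rw [h1, ih]
    | pred a ih => rw [← h1, sub_add_cancel, ih]
  have h3 : ∀ j : ℕ, ∑ i ∈ range (j * W), g (a + i) = j * ∑ b ∈ range W, g b := fun j => by
    induction j with
    | zero => simp
    | succ j ih =>
      rw [Nat.succ_mul, sum_range_add, ih]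
      simp only [Nat.cast_add, ← add_assoc, h2]
      push_cast; ring
  have hW' : (0 : ℝ) < W := by exact_mod_cast hW
  refine (sum_le_sum_of_subset_of_nonneg (range_mono (Nat.lt_div_mul_add hW).le)
    fun i _ _ => g0 _).trans ?_
  rw [← Nat.succ_mul, h3, ← mul_div_assoc, mul_div_right_comm]
  refine mul_le_mul_of_nonneg_right ?_ (sum_nonneg fun _ _ => g0 _)
  rw [add_div, div_self hW'.ne']
  push_cast
  linarith only [Nat.cast_div_le (α := ℝ) (m := L) (n := W)]

theorem Inv.abs_cnt_per (I : Inv h n₀) {u : ℤ → ℝ} {W : ℕ} (hW : 0 < W)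
    (hu : Function.Periodic u (W : ℤ)) {z : ℝ} (hz : 0 ≤ z) :
    |cnt h u z| ≤ (2 * z + 1 + W) * ((∑ b ∈ range W, |u b|) / W) := by
  have h1 : |cnt h u z| ≤ ∑ n ∈ box z, |u n| :=
    (abs_sum_le_sum_abs _ _).trans (sum_le_sum fun n _ => by
      rw [_root_.abs_mul]
      exact mul_le_of_le_one_left (abs_nonneg _) (I.h1 n))
  have h2 := card_box hz
  rw [box, Int.Icc_eq_finset_map, sum_map] at h1
  rw [box, Int.card_Icc] at h2
  refine h1.trans ((sum_per (g := fun n => |u n|) hW (fun n => congrArg abs (hu n))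
    (fun _ => abs_nonneg _) _ _).trans ?_)
  gcongr

end

end Pool.Agent.MP_158692_nt.H6
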